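import Pool.Agent.H2.SPL.KFoldSausageProof

/-!
# Convex bodies containing `k`-fold packings of unit balls (high dimensions)

For every `k` there is `d₀` such that for `d ≥ d₀`, every convex body of `ℝ^d` which contains a
`k`-fold packing of `n ≥ k` unit balls has volume at least that of the sausage of `⌊n/k⌋` balls.

Sketch. Take two centres `a, b` at maximal distance `Δ` and sort the centres by their projection
on the line `ab`.  If `k + 1` consecutive centres all lie within distance `1/2` of the segment `ab`,
the part of the body over the interval between their extreme projections has volume at least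
`2 κ_{d-1}`: the interval has length `L ≥ 1`, some centre has distance `w` from the axis with
`L^2/4 + w^2 ≥ 1`, and the triangle on `a, b` and this centre contributes `≥ (L w / 8) κ_{d-2}`.
If some centre is farther than `1/2` from the axis, then every centre `x` whose projection lies
between those of two such centres has volume at least `c_k κ_{d-2}` of the body within distance
`1 + σ` of it, and the balls of radius `1 + σ` cover only a small set more than `k` times, because
`k + 1` of them meet in a set of small diameter (parallelogram law).
Since `κ_{d-2} / κ_{d-1} → ∞` these centres give a surplus which pays for everything else.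
-/

open MeasureTheory Metric Module Set
open scoped ENNReal RealInnerProductSpace Pointwise

set_option linter.unusedSectionVars false

namespace Pool.Agent.Results.MP_fe456b_co.KFoldSausage

/-- **k-fold sausage conjecture in high dimensions.** For every `k ≥ 1` there is `d₀` such that
for all `d ≥ d₀` and all `n ≥ k`, every convex body `D` in `ℝ^d` containing a `k`-fold packing of
`n` unit balls has volume at least that of the sausage of `⌊n/k⌋` unit balls. -/
theorem result (k : ℕ) (hk : 1 ≤ k) : ∃ d₀ : ℕ, ∀ d : ℕ, d₀ ≤ d → ∀ n : ℕ, k ≤ n →
    ∀ x : Fin n → EuclideanSpace ℝ (Fin d),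
    (∀ p : EuclideanSpace ℝ (Fin d), ∀ J : Finset (Fin n),
      (∀ j ∈ J, p ∈ interior (closedBall (x j) 1)) → J.card ≤ k) →
    ∀ D : Set (EuclideanSpace ℝ (Fin d)), Convex ℝ D → IsCompact D → (interior D).Nonempty →
    (∀ j, closedBall (x j) 1 ⊆ D) →
    ∀ a b : EuclideanSpace ℝ (Fin d), dist a b = 2 * (((n / k : ℕ) : ℝ) - 1) →
      volume (segment ℝ a b + closedBall (0 : EuclideanSpace ℝ (Fin d)) 1) ≤ volume D :=
  result_proof k hk

end Pool.Agent.Results.MP_fe456b_co.KFoldSausage
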